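import Mathlib

set_option autoImplicit false

namespace Pool.Agent.Results.MP_5fc97f_co.Counter
open Matrix Module

/-- The connection matrix of an enumerated family of simplices. -/
def conn {n : ℕ} (s : Fin n → Finset ℕ) : Matrix (Fin n) (Fin n) ℝ :=
  Matrix.of fun i j => if (s i ∩ s j).Nonempty then 1 else 0

def s : Fin 24 → Finset ℕ := ![{0, 1, 2}, {0}, {1}, {2}, {0, 1}, {0, 2}, {1, 2}, {0, 4}, {3, 4, 5}, {3}, {4}, {5}, {3, 4}, {3, 5}, {4, 5}, {3, 7}, {6, 7, 8}, {6}, {7}, {8}, {6, 7}, {6, 8}, {7, 8}, {1, 6}]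

def gZ : Matrix (Fin 24) (Fin 24) ℤ := !![1,1,1,1,-1,-1,-1,0,0,0,0,0,0,0,0,0,0,0,0,0,0,0,0,0;
  1,-1,0,0,0,0,-1,1,0,0,-1,0,0,0,0,0,0,0,0,0,0,0,0,0;
  1,0,-1,0,0,-1,0,0,0,0,0,0,0,0,0,0,0,-1,0,0,0,0,0,1;
  1,0,0,0,-1,0,0,0,0,0,0,0,0,0,0,0,0,0,0,0,0,0,0,0;
  -1,0,0,-1,0,1,1,0,0,0,0,0,0,0,0,0,0,0,0,0,0,0,0,0;
  -1,0,-1,0,1,0,1,0,0,0,0,0,0,0,0,0,0,0,0,0,0,0,0,0;
  -1,-1,0,0,1,1,0,0,0,0,0,0,0,0,0,0,0,0,0,0,0,0,0,0;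
  0,1,0,0,0,0,0,-1,0,0,1,0,0,0,0,0,0,0,0,0,0,0,0,0;
  0,0,0,0,0,0,0,0,1,1,1,1,-1,-1,-1,0,0,0,0,0,0,0,0,0;
  0,0,0,0,0,0,0,0,1,-1,0,0,0,0,-1,1,0,0,-1,0,0,0,0,0;
  0,-1,0,0,0,0,0,1,1,0,-1,0,0,-1,0,0,0,0,0,0,0,0,0,0;
  0,0,0,0,0,0,0,0,1,0,0,0,-1,0,0,0,0,0,0,0,0,0,0,0;
  0,0,0,0,0,0,0,0,-1,0,0,-1,0,1,1,0,0,0,0,0,0,0,0,0;
  0,0,0,0,0,0,0,0,-1,0,-1,0,1,0,1,0,0,0,0,0,0,0,0,0;
  0,0,0,0,0,0,0,0,-1,-1,0,0,1,1,0,0,0,0,0,0,0,0,0,0;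
  0,0,0,0,0,0,0,0,0,1,0,0,0,0,0,-1,0,0,1,0,0,0,0,0;
  0,0,0,0,0,0,0,0,0,0,0,0,0,0,0,0,1,1,1,1,-1,-1,-1,0;
  0,0,-1,0,0,0,0,0,0,0,0,0,0,0,0,0,1,-1,0,0,0,0,-1,1;
  0,0,0,0,0,0,0,0,0,-1,0,0,0,0,0,1,1,0,-1,0,0,-1,0,0;
  0,0,0,0,0,0,0,0,0,0,0,0,0,0,0,0,1,0,0,0,-1,0,0,0;
  0,0,0,0,0,0,0,0,0,0,0,0,0,0,0,0,-1,0,0,-1,0,1,1,0;
  0,0,0,0,0,0,0,0,0,0,0,0,0,0,0,0,-1,0,-1,0,1,0,1,0;
  0,0,0,0,0,0,0,0,0,0,0,0,0,0,0,0,-1,-1,0,0,1,1,0,0;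
  0,0,1,0,0,0,0,0,0,0,0,0,0,0,0,0,0,1,0,0,0,0,0,-1]

def lZ : Matrix (Fin 24) (Fin 24) ℤ :=
  Matrix.of fun i j => if (s i ∩ s j).Nonempty then 1 else 0

theorem lg : lZ * gZ = 1 := by decide +kernel

def g : Matrix (Fin 24) (Fin 24) ℝ := gZ.map (Int.castRingHom ℝ)

theorem lg' : conn s * g = 1 := by
  have : conn s = lZ.map (Int.castRingHom ℝ) := by
    ext i j
    simp only [conn, lZ, of_apply, map_apply]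
    split_ifs <;> simp
  rw [this, g, ← Matrix.map_mul, lg, Matrix.map_one _ (map_zero _) (map_one _)]

theorem inv_eq : (conn s)⁻¹ = g := Matrix.inv_eq_right_inv lg'

theorem mv (x : Fin 24 → ℝ) : g *ᵥ x = ![(1)*x 0 + (1)*x 1 + (1)*x 2 + (1)*x 3 + (-1)*x 4 + (-1)*x 5 + (-1)*x 6,
    (1)*x 0 + (-1)*x 1 + (-1)*x 6 + (1)*x 7 + (-1)*x 10,
    (1)*x 0 + (-1)*x 2 + (-1)*x 5 + (-1)*x 17 + (1)*x 23,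
    (1)*x 0 + (-1)*x 4,
    (-1)*x 0 + (-1)*x 3 + (1)*x 5 + (1)*x 6,
    (-1)*x 0 + (-1)*x 2 + (1)*x 4 + (1)*x 6,
    (-1)*x 0 + (-1)*x 1 + (1)*x 4 + (1)*x 5,
    (1)*x 1 + (-1)*x 7 + (1)*x 10,
    (1)*x 8 + (1)*x 9 + (1)*x 10 + (1)*x 11 + (-1)*x 12 + (-1)*x 13 + (-1)*x 14,
    (1)*x 8 + (-1)*x 9 + (-1)*x 14 + (1)*x 15 + (-1)*x 18,
    (-1)*x 1 + (1)*x 7 + (1)*x 8 + (-1)*x 10 + (-1)*x 13,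
    (1)*x 8 + (-1)*x 12,
    (-1)*x 8 + (-1)*x 11 + (1)*x 13 + (1)*x 14,
    (-1)*x 8 + (-1)*x 10 + (1)*x 12 + (1)*x 14,
    (-1)*x 8 + (-1)*x 9 + (1)*x 12 + (1)*x 13,
    (1)*x 9 + (-1)*x 15 + (1)*x 18,
    (1)*x 16 + (1)*x 17 + (1)*x 18 + (1)*x 19 + (-1)*x 20 + (-1)*x 21 + (-1)*x 22,
    (-1)*x 2 + (1)*x 16 + (-1)*x 17 + (-1)*x 22 + (1)*x 23,
    (-1)*x 9 + (1)*x 15 + (1)*x 16 + (-1)*x 18 + (-1)*x 21,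
    (1)*x 16 + (-1)*x 20,
    (-1)*x 16 + (-1)*x 19 + (1)*x 21 + (1)*x 22,
    (-1)*x 16 + (-1)*x 18 + (1)*x 20 + (1)*x 22,
    (-1)*x 16 + (-1)*x 17 + (1)*x 20 + (1)*x 21,
    (1)*x 2 + (1)*x 17 + (-1)*x 23] := by
  ext i
  fin_cases i <;> simp [g, gZ, mulVec, dotProduct, Fin.sum_univ_succ] <;> ring

def pp (t : ℝ) : ℝ := ((1) + (-8)*t + (1)*t^2 + (34)*t^3 + (-2)*t^4 + (-38)*t^5 + (-15)*t^6 + (2)*t^7 + (1)*t^8)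

def qq (t : ℝ) : ℝ := ((1) + (-8)*t + (7)*t^2 + (31)*t^3 + (-11)*t^4 + (-41)*t^5 + (-15)*t^6 + (2)*t^7 + (1)*t^8)

theorem vanish (x : Fin 24 → ℝ) (m : ℝ) (h : g *ᵥ x = m • x) (hp : pp m ≠ 0) (hq : qq m ≠ 0) :
    x = 0 := by
  rw [mv] at h
  have h0 : (1)*x 0 + (1)*x 1 + (1)*x 2 + (1)*x 3 + (-1)*x 4 + (-1)*x 5 + (-1)*x 6 = m * x 0 := congrFun h 0
  have h1 : (1)*x 0 + (-1)*x 1 + (-1)*x 6 + (1)*x 7 + (-1)*x 10 = m * x 1 := congrFun h 1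
  have h2 : (1)*x 0 + (-1)*x 2 + (-1)*x 5 + (-1)*x 17 + (1)*x 23 = m * x 2 := congrFun h 2
  have h3 : (1)*x 0 + (-1)*x 4 = m * x 3 := congrFun h 3
  have h4 : (-1)*x 0 + (-1)*x 3 + (1)*x 5 + (1)*x 6 = m * x 4 := congrFun h 4
  have h5 : (-1)*x 0 + (-1)*x 2 + (1)*x 4 + (1)*x 6 = m * x 5 := congrFun h 5
  have h6 : (-1)*x 0 + (-1)*x 1 + (1)*x 4 + (1)*x 5 = m * x 6 := congrFun h 6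
  have h7 : (1)*x 1 + (-1)*x 7 + (1)*x 10 = m * x 7 := congrFun h 7
  have h8 : (1)*x 8 + (1)*x 9 + (1)*x 10 + (1)*x 11 + (-1)*x 12 + (-1)*x 13 + (-1)*x 14 = m * x 8 := congrFun h 8
  have h9 : (1)*x 8 + (-1)*x 9 + (-1)*x 14 + (1)*x 15 + (-1)*x 18 = m * x 9 := congrFun h 9
  have h10 : (-1)*x 1 + (1)*x 7 + (1)*x 8 + (-1)*x 10 + (-1)*x 13 = m * x 10 := congrFun h 10
  have h11 : (1)*x 8 + (-1)*x 12 = m * x 11 := congrFun h 11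
  have h12 : (-1)*x 8 + (-1)*x 11 + (1)*x 13 + (1)*x 14 = m * x 12 := congrFun h 12
  have h13 : (-1)*x 8 + (-1)*x 10 + (1)*x 12 + (1)*x 14 = m * x 13 := congrFun h 13
  have h14 : (-1)*x 8 + (-1)*x 9 + (1)*x 12 + (1)*x 13 = m * x 14 := congrFun h 14
  have h15 : (1)*x 9 + (-1)*x 15 + (1)*x 18 = m * x 15 := congrFun h 15
  have h16 : (1)*x 16 + (1)*x 17 + (1)*x 18 + (1)*x 19 + (-1)*x 20 + (-1)*x 21 + (-1)*x 22 = m * x 16 := congrFun h 16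
  have h17 : (-1)*x 2 + (1)*x 16 + (-1)*x 17 + (-1)*x 22 + (1)*x 23 = m * x 17 := congrFun h 17
  have h18 : (-1)*x 9 + (1)*x 15 + (1)*x 16 + (-1)*x 18 + (-1)*x 21 = m * x 18 := congrFun h 18
  have h19 : (1)*x 16 + (-1)*x 20 = m * x 19 := congrFun h 19
  have h20 : (-1)*x 16 + (-1)*x 19 + (1)*x 21 + (1)*x 22 = m * x 20 := congrFun h 20
  have h21 : (-1)*x 16 + (-1)*x 18 + (1)*x 20 + (1)*x 22 = m * x 21 := congrFun h 21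
  have h22 : (-1)*x 16 + (-1)*x 17 + (1)*x 20 + (1)*x 21 = m * x 22 := congrFun h 22
  have h23 : (1)*x 2 + (1)*x 17 + (-1)*x 23 = m * x 23 := congrFun h 23
  have a0 : x 0 + x 8 + x 16 = 0 := (mul_eq_zero.1 (show pp m * (x 0 + x 8 + x 16) = 0 by
    unfold pp; linear_combination - ((-1) + (-3)*m + (14)*m^2 + (2)*m^3 + (-18)*m^4 + (-6)*m^5 + (3)*m^6 + (1)*m^7) * h0 - ((-1) + (2)*m + (2)*m^2 + (-4)*m^3 + (-2)*m^4 + (2)*m^5 + (1)*m^6) * h1 - ((-1) + (2)*m + (2)*m^2 + (-4)*m^3 + (-2)*m^4 + (2)*m^5 + (1)*m^6) * h2 - ((-1) + (4)*m + (-8)*m^3 + (4)*m^5 + (1)*m^6) * h3 - ((-1) + (-2)*m + (10)*m^2 + (2)*m^3 + (-10)*m^4 + (-6)*m^5 + (-1)*m^6) * h4 - ((-1) + (6)*m^2 + (2)*m^3 + (-8)*m^4 + (-6)*m^5 + (-1)*m^6) * h5 - ((-1) + (6)*m^2 + (2)*m^3 + (-8)*m^4 + (-6)*m^5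 + (-1)*m^6) * h6 - ((-2) + (6)*m + (-2)*m^2 + (-6)*m^3 + (2)*m^4 + (2)*m^5) * h7 - ((-1) + (-3)*m + (14)*m^2 + (2)*m^3 + (-18)*m^4 + (-6)*m^5 + (3)*m^6 + (1)*m^7) * h8 - ((-1) + (2)*m + (2)*m^2 + (-4)*m^3 + (-2)*m^4 + (2)*m^5 + (1)*m^6) * h9 - ((-1) + (2)*m + (2)*m^2 + (-4)*m^3 + (-2)*m^4 + (2)*m^5 + (1)*m^6) * h10 - ((-1) + (4)*m + (-8)*m^3 + (4)*m^5 + (1)*m^6) * h11 - ((-1) + (-2)*m + (10)*m^2 + (2)*m^3 + (-10)*m^4 + (-6)*m^5 + (-1)*m^6) * h12 - ((-1) + (6)*m^2 + (2)*m^3 + (-8)*m^4 + (-6)*m^5 + (-1)*m^6) * h13 - ((-1) + (6)*m^2 + (2)*m^3 + (-8)*m^4 + (-6)*m^5 + (-1)*m^6) * h14 - ((-2) + (6)*m + (-2)*m^2 + (-6)*m^3 + (2)*m^4 + (2)*m^5) * h15 - ((-1) + (-3)*m + (14)*m^2 + (2)*m^3 + (-18)*m^4 + (-6)*m^5 + (3)*m^6 + (1)*m^7) * h16 - ((-1) + (2)*m + (2)*m^2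 + (-4)*m^3 + (-2)*m^4 + (2)*m^5 + (1)*m^6) * h17 - ((-1) + (2)*m + (2)*m^2 + (-4)*m^3 + (-2)*m^4 + (2)*m^5 + (1)*m^6) * h18 - ((-1) + (4)*m + (-8)*m^3 + (4)*m^5 + (1)*m^6) * h19 - ((-1) + (-2)*m + (10)*m^2 + (2)*m^3 + (-10)*m^4 + (-6)*m^5 + (-1)*m^6) * h20 - ((-1) + (6)*m^2 + (2)*m^3 + (-8)*m^4 + (-6)*m^5 + (-1)*m^6) * h21 - ((-1) + (6)*m^2 + (2)*m^3 + (-8)*m^4 + (-6)*m^5 + (-1)*m^6) * h22 - ((-2) + (6)*m + (-2)*m^2 + (-6)*m^3 + (2)*m^4 + (2)*m^5) * h23)).resolve_left hp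
  have b0 : x 0 - x 8 = 0 := (mul_eq_zero.1 (show qq m * (x 0 - x 8) = 0 by
    unfold qq; linear_combination - ((-1) + (11)*m^2 + (-1)*m^3 + (-18)*m^4 + (-6)*m^5 + (3)*m^6 + (1)*m^7) * h0 - ((-1) + (4)*m + (-8)*m^3 + (4)*m^5 + (1)*m^6) * h1 - ((-1) + (3)*m + (1)*m^2 + (-6)*m^3 + (-1)*m^4 + (3)*m^5 + (1)*m^6) * h2 - ((-1) + (4)*m + (-8)*m^3 + (4)*m^5 + (1)*m^6) * h3 - ((-1) + (1)*m + (7)*m^2 + (-1)*m^3 + (-10)*m^4 + (-6)*m^5 + (-1)*m^6) * h4 - ((-1) + (2)*m + (5)*m^2 + (-1)*m^3 + (-9)*m^4 + (-6)*m^5 + (-1)*m^6) * h5 - ((-1) + (1)*m + (7)*m^2 + (-1)*m^3 + (-10)*m^4 + (-6)*m^5 + (-1)*m^6) * h6 - ((1) + (-11)*m^2 + (1)*m^3 + (18)*m^4 + (6)*m^5 + (-3)*m^6 + (-1)*m^7) * h8 - ((1) + (-3)*m + (-1)*m^2 + (6)*m^3 + (1)*m^4 + (-3)*m^5 + (-1)*m^6) * h9 - ((1) +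 (-4)*m + (8)*m^3 + (-4)*m^5 + (-1)*m^6) * h10 - ((1) + (-4)*m + (8)*m^3 + (-4)*m^5 + (-1)*m^6) * h11 - ((1) + (-1)*m + (-7)*m^2 + (1)*m^3 + (10)*m^4 + (6)*m^5 + (1)*m^6) * h12 - ((1) + (-1)*m + (-7)*m^2 + (1)*m^3 + (10)*m^4 + (6)*m^5 + (1)*m^6) * h13 - ((1) + (-2)*m + (-5)*m^2 + (1)*m^3 + (9)*m^4 + (6)*m^5 + (1)*m^6) * h14 - ((1) + (-3)*m + (1)*m^2 + (3)*m^3 + (-1)*m^4 + (-1)*m^5) * h15 - ((-1)*m + (1)*m^2 + (2)*m^3 + (-1)*m^4 + (-1)*m^5) * h17 - ((1)*m + (-1)*m^2 + (-2)*m^3 + (1)*m^4 + (1)*m^5) * h18 - ((-1)*m + (2)*m^2 + (-1)*m^4) * h21 - ((1)*m + (-2)*m^2 + (1)*m^4) * h22 - ((-1) + (3)*m + (-1)*m^2 + (-3)*m^3 + (1)*m^4 + (1)*m^5) * h23)).resolve_left hq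
  have c0 : x 8 - x 16 = 0 := (mul_eq_zero.1 (show qq m * (x 8 - x 16) = 0 by
    unfold qq; linear_combination - ((-1)*m + (1)*m^2 + (2)*m^3 + (-1)*m^4 + (-1)*m^5) * h1 - ((1)*m + (-1)*m^2 + (-2)*m^3 + (1)*m^4 + (1)*m^5) * h2 - ((-1)*m + (2)*m^2 + (-1)*m^4) * h5 - ((1)*m + (-2)*m^2 + (1)*m^4) * h6 - ((-1) + (3)*m + (-1)*m^2 + (-3)*m^3 + (1)*m^4 + (1)*m^5) * h7 - ((-1) + (11)*m^2 + (-1)*m^3 + (-18)*m^4 + (-6)*m^5 + (3)*m^6 + (1)*m^7) * h8 - ((-1) + (4)*m + (-8)*m^3 + (4)*m^5 + (1)*m^6) * h9 - ((-1) + (3)*m + (1)*m^2 + (-6)*m^3 + (-1)*m^4 + (3)*m^5 + (1)*m^6) * h10 - ((-1) + (4)*m + (-8)*m^3 + (4)*m^5 + (1)*m^6) * h11 - ((-1) + (1)*m + (7)*m^2 + (-1)*m^3 + (-10)*m^4 + (-6)*m^5 + (-1)*m^6) * h12 - ((-1) + (2)*m + (5)*m^2 + (-1)*m^3 + (-9)*m^4 + (-6)*m^5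 + (-1)*m^6) * h13 - ((-1) + (1)*m + (7)*m^2 + (-1)*m^3 + (-10)*m^4 + (-6)*m^5 + (-1)*m^6) * h14 - ((1) + (-11)*m^2 + (1)*m^3 + (18)*m^4 + (6)*m^5 + (-3)*m^6 + (-1)*m^7) * h16 - ((1) + (-3)*m + (-1)*m^2 + (6)*m^3 + (1)*m^4 + (-3)*m^5 + (-1)*m^6) * h17 - ((1) + (-4)*m + (8)*m^3 + (-4)*m^5 + (-1)*m^6) * h18 - ((1) + (-4)*m + (8)*m^3 + (-4)*m^5 + (-1)*m^6) * h19 - ((1) + (-1)*m + (-7)*m^2 + (1)*m^3 + (10)*m^4 + (6)*m^5 + (1)*m^6) * h20 - ((1) + (-1)*m + (-7)*m^2 + (1)*m^3 + (10)*m^4 + (6)*m^5 + (1)*m^6) * h21 - ((1) + (-2)*m + (-5)*m^2 + (1)*m^3 + (9)*m^4 + (6)*m^5 + (1)*m^6) * h22 - ((1) + (-3)*m + (1)*m^2 + (3)*m^3 + (-1)*m^4 + (-1)*m^5) * h23)).resolve_left hq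
  have a1 : x 1 + x 9 + x 17 = 0 := (mul_eq_zero.1 (show pp m * (x 1 + x 9 + x 17) = 0 by
    unfold pp; linear_combination - ((-1) + (2)*m + (2)*m^2 + (-4)*m^3 + (-2)*m^4 + (2)*m^5 + (1)*m^6) * h0 - ((-1) + (3)*m + (10)*m^2 + (-7)*m^3 + (-25)*m^4 + (-12)*m^5 + (1)*m^6 + (1)*m^7) * h1 - ((-3)*m + (-2)*m^2 + (10)*m^3 + (12)*m^4 + (2)*m^5 + (-1)*m^6) * h2 - ((-2)*m + (-1)*m^2 + (4)*m^3 + (4)*m^4 + (1)*m^5) * h3 - ((-1) + (2)*m + (4)*m^2 + (-3)*m^3 + (-6)*m^4 + (-2)*m^5) * h4 - ((-1) + (3)*m + (4)*m^2 + (-9)*m^3 + (-8)*m^4 + (-1)*m^5) * h5 - ((-4)*m + (-1)*m^2 + (13)*m^3 + (7)*m^4 + (-2)*m^5 + (-1)*m^6) * h6 - ((-1) + (1)*m + (7)*m^2 + (-4)*m^3 + (-9)*m^4 + (-1)*m^5 + (1)*m^6) * h7 - ((-1) + (2)*m + (2)*m^2 + (-4)*m^3 + (-2)*m^4 + (2)*m^5 + (1)*m^6) * h8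 - ((-1) + (3)*m + (10)*m^2 + (-7)*m^3 + (-25)*m^4 + (-12)*m^5 + (1)*m^6 + (1)*m^7) * h9 - ((-3)*m + (-2)*m^2 + (10)*m^3 + (12)*m^4 + (2)*m^5 + (-1)*m^6) * h10 - ((-2)*m + (-1)*m^2 + (4)*m^3 + (4)*m^4 + (1)*m^5) * h11 - ((-1) + (2)*m + (4)*m^2 + (-3)*m^3 + (-6)*m^4 + (-2)*m^5) * h12 - ((-1) + (3)*m + (4)*m^2 + (-9)*m^3 + (-8)*m^4 + (-1)*m^5) * h13 - ((-4)*m + (-1)*m^2 + (13)*m^3 + (7)*m^4 + (-2)*m^5 + (-1)*m^6) * h14 - ((-1) + (1)*m + (7)*m^2 + (-4)*m^3 + (-9)*m^4 + (-1)*m^5 + (1)*m^6) * h15 - ((-1) + (2)*m + (2)*m^2 + (-4)*m^3 + (-2)*m^4 + (2)*m^5 + (1)*m^6) * h16 - ((-1) + (3)*m + (10)*m^2 + (-7)*m^3 + (-25)*m^4 + (-12)*m^5 + (1)*m^6 + (1)*m^7) * h17 - ((-3)*m + (-2)*m^2 + (10)*m^3 + (12)*m^4 + (2)*m^5 + (-1)*m^6) * h18 - ((-2)*m + (-1)*m^2 + (4)*m^3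 + (4)*m^4 + (1)*m^5) * h19 - ((-1) + (2)*m + (4)*m^2 + (-3)*m^3 + (-6)*m^4 + (-2)*m^5) * h20 - ((-1) + (3)*m + (4)*m^2 + (-9)*m^3 + (-8)*m^4 + (-1)*m^5) * h21 - ((-4)*m + (-1)*m^2 + (13)*m^3 + (7)*m^4 + (-2)*m^5 + (-1)*m^6) * h22 - ((-1) + (1)*m + (7)*m^2 + (-4)*m^3 + (-9)*m^4 + (-1)*m^5 + (1)*m^6) * h23)).resolve_left hp
  have b1 : x 1 - x 9 = 0 := (mul_eq_zero.1 (show qq m * (x 1 - x 9) = 0 by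
    unfold qq; linear_combination - ((-1) + (3)*m + (1)*m^2 + (-6)*m^3 + (-1)*m^4 + (3)*m^5 + (1)*m^6) * h0 - ((-1) + (3)*m + (10)*m^2 + (-7)*m^3 + (-25)*m^4 + (-12)*m^5 + (1)*m^6 + (1)*m^7) * h1 - ((-2)*m + (-1)*m^2 + (4)*m^3 + (4)*m^4 + (1)*m^5) * h2 - ((-2)*m + (1)*m^2 + (7)*m^3 + (5)*m^4 + (1)*m^5) * h3 - ((-1) + (3)*m + (3)*m^2 + (-7)*m^3 + (-8)*m^4 + (-2)*m^5) * h4 - ((-1) + (3)*m + (5)*m^2 + (-6)*m^3 + (-8)*m^4 + (-2)*m^5) * h5 - ((-3)*m + (10)*m^3 + (5)*m^4 + (-2)*m^5 + (-1)*m^6) * h6 - ((-1) + (5)*m + (5)*m^2 + (-10)*m^3 + (-11)*m^4 + (-1)*m^5 + (1)*m^6) * h7 - ((1) + (-4)*m + (8)*m^3 + (-4)*m^5 + (-1)*m^6) * h8 - ((1) + (-3)*m + (-10)*m^2 + (7)*m^3 + (25)*m^4 + (12)*m^5 + (-1)*m^6 + (-1)*m^7) * h9 - ((1)*m + (2)*m^3 + (4)*m^4 + (-1)*m^6) *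 h10 - ((2)*m + (-3)*m^2 + (-10)*m^3 + (-6)*m^4 + (-1)*m^5) * h11 - ((1) + (-4)*m + (-2)*m^2 + (11)*m^3 + (10)*m^4 + (2)*m^5) * h12 - ((1) + (-3)*m + (-6)*m^2 + (3)*m^3 + (8)*m^4 + (3)*m^5) * h13 - ((2)*m + (-1)*m^2 + (-7)*m^3 + (-3)*m^4 + (2)*m^5 + (1)*m^6) * h14 - ((1) + (-3)*m + (-6)*m^2 + (7)*m^3 + (10)*m^4 + (1)*m^5 + (-1)*m^6) * h15 - ((1)*m + (-1)*m^2 + (-2)*m^3 + (1)*m^4 + (1)*m^5) * h16 - ((1)*m + (1)*m^2 + (-6)*m^3 + (-8)*m^4 + (-1)*m^5 + (1)*m^6) * h18 - ((2)*m^2 + (3)*m^3 + (1)*m^4) * h19 - ((1)*m + (-1)*m^2 + (-4)*m^3 + (-2)*m^4) * h20 - ((1)*m^2 + (3)*m^3 + (-1)*m^5) * h21 - ((1)*m + (1)*m^2 + (-3)*m^3 + (-2)*m^4) * h22 - ((-2)*m + (1)*m^2 + (3)*m^3 + (1)*m^4) * h23)).resolve_left hq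
  have c1 : x 9 - x 17 = 0 := (mul_eq_zero.1 (show qq m * (x 9 - x 17) = 0 by
    unfold qq; linear_combination - ((1)*m + (-1)*m^2 + (-2)*m^3 + (1)*m^4 + (1)*m^5) * h0 - ((1)*m + (1)*m^2 + (-6)*m^3 + (-8)*m^4 + (-1)*m^5 + (1)*m^6) * h2 - ((2)*m^2 + (3)*m^3 + (1)*m^4) * h3 - ((1)*m + (-1)*m^2 + (-4)*m^3 + (-2)*m^4) * h4 - ((1)*m^2 + (3)*m^3 + (-1)*m^5) * h5 - ((1)*m + (1)*m^2 + (-3)*m^3 + (-2)*m^4) * h6 - ((-2)*m + (1)*m^2 + (3)*m^3 + (1)*m^4) * h7 - ((-1) + (3)*m + (1)*m^2 + (-6)*m^3 + (-1)*m^4 + (3)*m^5 + (1)*m^6) * h8 - ((-1) + (3)*m + (10)*m^2 + (-7)*m^3 + (-25)*m^4 + (-12)*m^5 + (1)*m^6 + (1)*m^7) * h9 - ((-2)*m + (-1)*m^2 + (4)*m^3 + (4)*m^4 + (1)*m^5) * h10 - ((-2)*m + (1)*m^2 + (7)*m^3 + (5)*m^4 + (1)*m^5) * h11 - ((-1) + (3)*m + (3)*m^2 + (-7)*m^3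 + (-8)*m^4 + (-2)*m^5) * h12 - ((-1) + (3)*m + (5)*m^2 + (-6)*m^3 + (-8)*m^4 + (-2)*m^5) * h13 - ((-3)*m + (10)*m^3 + (5)*m^4 + (-2)*m^5 + (-1)*m^6) * h14 - ((-1) + (5)*m + (5)*m^2 + (-10)*m^3 + (-11)*m^4 + (-1)*m^5 + (1)*m^6) * h15 - ((1) + (-4)*m + (8)*m^3 + (-4)*m^5 + (-1)*m^6) * h16 - ((1) + (-3)*m + (-10)*m^2 + (7)*m^3 + (25)*m^4 + (12)*m^5 + (-1)*m^6 + (-1)*m^7) * h17 - ((1)*m + (2)*m^3 + (4)*m^4 + (-1)*m^6) * h18 - ((2)*m + (-3)*m^2 + (-10)*m^3 + (-6)*m^4 + (-1)*m^5) * h19 - ((1) + (-4)*m + (-2)*m^2 + (11)*m^3 + (10)*m^4 + (2)*m^5) * h20 - ((1) + (-3)*m + (-6)*m^2 + (3)*m^3 + (8)*m^4 + (3)*m^5) * h21 - ((2)*m + (-1)*m^2 + (-7)*m^3 + (-3)*m^4 + (2)*m^5 + (1)*m^6) * h22 - ((1) + (-3)*m + (-6)*m^2 + (7)*m^3 + (10)*m^4 + (1)*m^5 + (-1)*m^6) * h23)).resolve_left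 hq
  have a2 : x 2 + x 10 + x 18 = 0 := (mul_eq_zero.1 (show pp m * (x 2 + x 10 + x 18) = 0 by
    unfold pp; linear_combination - ((-1) + (2)*m + (2)*m^2 + (-4)*m^3 + (-2)*m^4 + (2)*m^5 + (1)*m^6) * h0 - ((-3)*m + (-2)*m^2 + (10)*m^3 + (12)*m^4 + (2)*m^5 + (-1)*m^6) * h1 - ((-1) + (3)*m + (10)*m^2 + (-7)*m^3 + (-25)*m^4 + (-12)*m^5 + (1)*m^6 + (1)*m^7) * h2 - ((-2)*m + (-1)*m^2 + (4)*m^3 + (4)*m^4 + (1)*m^5) * h3 - ((-1) + (2)*m + (4)*m^2 + (-3)*m^3 + (-6)*m^4 + (-2)*m^5) * h4 - ((-4)*m + (-1)*m^2 + (13)*m^3 + (7)*m^4 + (-2)*m^5 + (-1)*m^6) * h5 - ((-1) + (3)*m + (4)*m^2 + (-9)*m^3 + (-8)*m^4 + (-1)*m^5) * h6 - ((-1) + (1)*m + (7)*m^2 + (-4)*m^3 + (-9)*m^4 + (-1)*m^5 + (1)*m^6) * h7 - ((-1) + (2)*m + (2)*m^2 + (-4)*m^3 + (-2)*m^4 + (2)*m^5 + (1)*m^6)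 * h8 - ((-3)*m + (-2)*m^2 + (10)*m^3 + (12)*m^4 + (2)*m^5 + (-1)*m^6) * h9 - ((-1) + (3)*m + (10)*m^2 + (-7)*m^3 + (-25)*m^4 + (-12)*m^5 + (1)*m^6 + (1)*m^7) * h10 - ((-2)*m + (-1)*m^2 + (4)*m^3 + (4)*m^4 + (1)*m^5) * h11 - ((-1) + (2)*m + (4)*m^2 + (-3)*m^3 + (-6)*m^4 + (-2)*m^5) * h12 - ((-4)*m + (-1)*m^2 + (13)*m^3 + (7)*m^4 + (-2)*m^5 + (-1)*m^6) * h13 - ((-1) + (3)*m + (4)*m^2 + (-9)*m^3 + (-8)*m^4 + (-1)*m^5) * h14 - ((-1) + (1)*m + (7)*m^2 + (-4)*m^3 + (-9)*m^4 + (-1)*m^5 + (1)*m^6) * h15 - ((-1) + (2)*m + (2)*m^2 + (-4)*m^3 + (-2)*m^4 + (2)*m^5 + (1)*m^6) * h16 - ((-3)*m + (-2)*m^2 + (10)*m^3 + (12)*m^4 + (2)*m^5 + (-1)*m^6) * h17 - ((-1) + (3)*m + (10)*m^2 + (-7)*m^3 + (-25)*m^4 + (-12)*m^5 + (1)*m^6 + (1)*m^7) * h18 - ((-2)*m + (-1)*m^2 + (4)*m^3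 + (4)*m^4 + (1)*m^5) * h19 - ((-1) + (2)*m + (4)*m^2 + (-3)*m^3 + (-6)*m^4 + (-2)*m^5) * h20 - ((-4)*m + (-1)*m^2 + (13)*m^3 + (7)*m^4 + (-2)*m^5 + (-1)*m^6) * h21 - ((-1) + (3)*m + (4)*m^2 + (-9)*m^3 + (-8)*m^4 + (-1)*m^5) * h22 - ((-1) + (1)*m + (7)*m^2 + (-4)*m^3 + (-9)*m^4 + (-1)*m^5 + (1)*m^6) * h23)).resolve_left hp
  have b2 : x 2 - x 10 = 0 := (mul_eq_zero.1 (show qq m * (x 2 - x 10) = 0 by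
    unfold qq; linear_combination - ((-1) + (4)*m + (-8)*m^3 + (4)*m^5 + (1)*m^6) * h0 - ((-1)*m + (-2)*m^3 + (-4)*m^4 + (1)*m^6) * h1 - ((-1) + (3)*m + (10)*m^2 + (-7)*m^3 + (-25)*m^4 + (-12)*m^5 + (1)*m^6 + (1)*m^7) * h2 - ((-2)*m + (3)*m^2 + (10)*m^3 + (6)*m^4 + (1)*m^5) * h3 - ((-1) + (4)*m + (2)*m^2 + (-11)*m^3 + (-10)*m^4 + (-2)*m^5) * h4 - ((-2)*m + (1)*m^2 + (7)*m^3 + (3)*m^4 + (-2)*m^5 + (-1)*m^6) * h5 - ((-1) + (3)*m + (6)*m^2 + (-3)*m^3 + (-8)*m^4 + (-3)*m^5) * h6 - ((1) + (-5)*m + (-5)*m^2 + (10)*m^3 + (11)*m^4 + (1)*m^5 + (-1)*m^6) * h7 - ((1) + (-3)*m + (-1)*m^2 + (6)*m^3 + (1)*m^4 + (-3)*m^5 + (-1)*m^6) * h8 - ((2)*m + (1)*m^2 + (-4)*m^3 + (-4)*m^4 + (-1)*m^5) * h9 - ((1) + (-3)*m + (-10)*m^2 + (7)*m^3 + (25)*m^4 + (12)*m^5 + (-1)*m^6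 + (-1)*m^7) * h10 - ((2)*m + (-1)*m^2 + (-7)*m^3 + (-5)*m^4 + (-1)*m^5) * h11 - ((1) + (-3)*m + (-3)*m^2 + (7)*m^3 + (8)*m^4 + (2)*m^5) * h12 - ((3)*m + (-10)*m^3 + (-5)*m^4 + (2)*m^5 + (1)*m^6) * h13 - ((1) + (-3)*m + (-5)*m^2 + (6)*m^3 + (8)*m^4 + (2)*m^5) * h14 - ((2)*m + (-1)*m^2 + (-3)*m^3 + (-1)*m^4) * h15 - ((-1)*m + (1)*m^2 + (2)*m^3 + (-1)*m^4 + (-1)*m^5) * h16 - ((-1)*m + (-1)*m^2 + (6)*m^3 + (8)*m^4 + (1)*m^5 + (-1)*m^6) * h17 - ((-2)*m^2 + (-3)*m^3 + (-1)*m^4) * h19 - ((-1)*m + (1)*m^2 + (4)*m^3 + (2)*m^4) * h20 - ((-1)*m + (-1)*m^2 + (3)*m^3 + (2)*m^4) * h21 - ((-1)*m^2 + (-3)*m^3 + (1)*m^5) * h22 - ((-1) + (3)*m + (6)*m^2 + (-7)*m^3 + (-10)*m^4 + (-1)*m^5 + (1)*m^6) * h23)).resolve_left hq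
  have c2 : x 10 - x 18 = 0 := (mul_eq_zero.1 (show qq m * (x 10 - x 18) = 0 by
    unfold qq; linear_combination - ((-1)*m + (1)*m^2 + (2)*m^3 + (-1)*m^4 + (-1)*m^5) * h0 - ((-1)*m + (-1)*m^2 + (6)*m^3 + (8)*m^4 + (1)*m^5 + (-1)*m^6) * h1 - ((-2)*m^2 + (-3)*m^3 + (-1)*m^4) * h3 - ((-1)*m + (1)*m^2 + (4)*m^3 + (2)*m^4) * h4 - ((-1)*m + (-1)*m^2 + (3)*m^3 + (2)*m^4) * h5 - ((-1)*m^2 + (-3)*m^3 + (1)*m^5) * h6 - ((-1) + (3)*m + (6)*m^2 + (-7)*m^3 + (-10)*m^4 + (-1)*m^5 + (1)*m^6) * h7 - ((-1) + (4)*m + (-8)*m^3 + (4)*m^5 + (1)*m^6) * h8 - ((-1)*m + (-2)*m^3 + (-4)*m^4 + (1)*m^6) * h9 - ((-1) + (3)*m + (10)*m^2 + (-7)*m^3 + (-25)*m^4 + (-12)*m^5 + (1)*m^6 + (1)*m^7) * h10 - ((-2)*m + (3)*m^2 + (10)*m^3 + (6)*m^4 + (1)*m^5) * h11 - ((-1) + (4)*m + (2)*m^2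 + (-11)*m^3 + (-10)*m^4 + (-2)*m^5) * h12 - ((-2)*m + (1)*m^2 + (7)*m^3 + (3)*m^4 + (-2)*m^5 + (-1)*m^6) * h13 - ((-1) + (3)*m + (6)*m^2 + (-3)*m^3 + (-8)*m^4 + (-3)*m^5) * h14 - ((1) + (-5)*m + (-5)*m^2 + (10)*m^3 + (11)*m^4 + (1)*m^5 + (-1)*m^6) * h15 - ((1) + (-3)*m + (-1)*m^2 + (6)*m^3 + (1)*m^4 + (-3)*m^5 + (-1)*m^6) * h16 - ((2)*m + (1)*m^2 + (-4)*m^3 + (-4)*m^4 + (-1)*m^5) * h17 - ((1) + (-3)*m + (-10)*m^2 + (7)*m^3 + (25)*m^4 + (12)*m^5 + (-1)*m^6 + (-1)*m^7) * h18 - ((2)*m + (-1)*m^2 + (-7)*m^3 + (-5)*m^4 + (-1)*m^5) * h19 - ((1) + (-3)*m + (-3)*m^2 + (7)*m^3 + (8)*m^4 + (2)*m^5) * h20 - ((3)*m + (-10)*m^3 + (-5)*m^4 + (2)*m^5 + (1)*m^6) * h21 - ((1) + (-3)*m + (-5)*m^2 + (6)*m^3 + (8)*m^4 + (2)*m^5) * h22 - ((2)*m + (-1)*m^2 + (-3)*m^3 + (-1)*m^4)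 * h23)).resolve_left hq
  have a3 : x 3 + x 11 + x 19 = 0 := (mul_eq_zero.1 (show pp m * (x 3 + x 11 + x 19) = 0 by
    unfold pp; linear_combination - ((-1) + (4)*m + (-8)*m^3 + (4)*m^5 + (1)*m^6) * h0 - ((-2)*m + (-1)*m^2 + (4)*m^3 + (4)*m^4 + (1)*m^5) * h1 - ((-2)*m + (-1)*m^2 + (4)*m^3 + (4)*m^4 + (1)*m^5) * h2 - ((-1) + (4)*m + (15)*m^2 + (-7)*m^3 + (-31)*m^4 + (-13)*m^5 + (2)*m^6 + (1)*m^7) * h3 - ((-3)*m + (-3)*m^2 + (11)*m^3 + (5)*m^4 + (-3)*m^5 + (-1)*m^6) * h4 - ((-1) + (4)*m + (6)*m^2 + (-9)*m^3 + (-10)*m^4 + (-2)*m^5) * h5 - ((-1) + (4)*m + (6)*m^2 + (-9)*m^3 + (-10)*m^4 + (-2)*m^5) * h6 - ((-4)*m + (2)*m^2 + (6)*m^3 + (2)*m^4) * h7 - ((-1) + (4)*m + (-8)*m^3 + (4)*m^5 + (1)*m^6) * h8 - ((-2)*m + (-1)*m^2 + (4)*m^3 + (4)*m^4 + (1)*m^5) *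 h9 - ((-2)*m + (-1)*m^2 + (4)*m^3 + (4)*m^4 + (1)*m^5) * h10 - ((-1) + (4)*m + (15)*m^2 + (-7)*m^3 + (-31)*m^4 + (-13)*m^5 + (2)*m^6 + (1)*m^7) * h11 - ((-3)*m + (-3)*m^2 + (11)*m^3 + (5)*m^4 + (-3)*m^5 + (-1)*m^6) * h12 - ((-1) + (4)*m + (6)*m^2 + (-9)*m^3 + (-10)*m^4 + (-2)*m^5) * h13 - ((-1) + (4)*m + (6)*m^2 + (-9)*m^3 + (-10)*m^4 + (-2)*m^5) * h14 - ((-4)*m + (2)*m^2 + (6)*m^3 + (2)*m^4) * h15 - ((-1) + (4)*m + (-8)*m^3 + (4)*m^5 + (1)*m^6) * h16 - ((-2)*m + (-1)*m^2 + (4)*m^3 + (4)*m^4 + (1)*m^5) * h17 - ((-2)*m + (-1)*m^2 + (4)*m^3 + (4)*m^4 + (1)*m^5) * h18 - ((-1) + (4)*m + (15)*m^2 + (-7)*m^3 + (-31)*m^4 + (-13)*m^5 + (2)*m^6 + (1)*m^7) * h19 - ((-3)*m + (-3)*m^2 + (11)*m^3 + (5)*m^4 + (-3)*m^5 + (-1)*m^6) * h20 - ((-1) + (4)*m + (6)*m^2 +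 (-9)*m^3 + (-10)*m^4 + (-2)*m^5) * h21 - ((-1) + (4)*m + (6)*m^2 + (-9)*m^3 + (-10)*m^4 + (-2)*m^5) * h22 - ((-4)*m + (2)*m^2 + (6)*m^3 + (2)*m^4) * h23)).resolve_left hp
  have b3 : x 3 - x 11 = 0 := (mul_eq_zero.1 (show qq m * (x 3 - x 11) = 0 by
    unfold qq; linear_combination - ((-1) + (4)*m + (-8)*m^3 + (4)*m^5 + (1)*m^6) * h0 - ((-2)*m + (3)*m^2 + (10)*m^3 + (6)*m^4 + (1)*m^5) * h1 - ((-2)*m + (1)*m^2 + (7)*m^3 + (5)*m^4 + (1)*m^5) * h2 - ((-1) + (4)*m + (9)*m^2 + (-16)*m^3 + (-34)*m^4 + (-13)*m^5 + (2)*m^6 + (1)*m^7) * h3 - ((-3)*m + (3)*m^2 + (14)*m^3 + (5)*m^4 + (-3)*m^5 + (-1)*m^6) * h4 - ((-1) + (4)*m + (4)*m^2 + (-10)*m^3 + (-10)*m^4 + (-2)*m^5) * h5 - ((-1) + (4)*m + (2)*m^2 + (-11)*m^3 + (-10)*m^4 + (-2)*m^5) * h6 - ((1) + (-4)*m + (8)*m^3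 + (-4)*m^5 + (-1)*m^6) * h8 - ((2)*m + (-1)*m^2 + (-7)*m^3 + (-5)*m^4 + (-1)*m^5) * h9 - ((2)*m + (-3)*m^2 + (-10)*m^3 + (-6)*m^4 + (-1)*m^5) * h10 - ((1) + (-4)*m + (-9)*m^2 + (16)*m^3 + (34)*m^4 + (13)*m^5 + (-2)*m^6 + (-1)*m^7) * h11 - ((3)*m + (-3)*m^2 + (-14)*m^3 + (-5)*m^4 + (3)*m^5 + (1)*m^6) * h12 - ((1) + (-4)*m + (-2)*m^2 + (11)*m^3 + (10)*m^4 + (2)*m^5) * h13 - ((1) + (-4)*m + (-4)*m^2 + (10)*m^3 + (10)*m^4 + (2)*m^5) * h14 - ((2)*m + (-1)*m^2 + (-3)*m^3 + (-1)*m^4) * h15 - ((-2)*m^2 + (-3)*m^3 + (-1)*m^4) * h17 - ((2)*m^2 + (3)*m^3 + (1)*m^4) * h18 - ((-2)*m^2 + (-1)*m^3) * h21 - ((2)*m^2 + (1)*m^3) * h22 - ((-2)*m + (1)*m^2 + (3)*m^3 + (1)*m^4) * h23)).resolve_left hq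
  have c3 : x 11 - x 19 = 0 := (mul_eq_zero.1 (show qq m * (x 11 - x 19) = 0 by
    unfold qq; linear_combination - ((-2)*m^2 + (-3)*m^3 + (-1)*m^4) * h1 - ((2)*m^2 + (3)*m^3 + (1)*m^4) * h2 - ((-2)*m^2 + (-1)*m^3) * h5 - ((2)*m^2 + (1)*m^3) * h6 - ((-2)*m + (1)*m^2 + (3)*m^3 + (1)*m^4) * h7 - ((-1) + (4)*m + (-8)*m^3 + (4)*m^5 + (1)*m^6) * h8 - ((-2)*m + (3)*m^2 + (10)*m^3 + (6)*m^4 + (1)*m^5) * h9 - ((-2)*m + (1)*m^2 + (7)*m^3 + (5)*m^4 + (1)*m^5) * h10 - ((-1) + (4)*m + (9)*m^2 + (-16)*m^3 + (-34)*m^4 + (-13)*m^5 + (2)*m^6 + (1)*m^7) * h11 - ((-3)*m + (3)*m^2 + (14)*m^3 + (5)*m^4 + (-3)*m^5 + (-1)*m^6) * h12 - ((-1) + (4)*m + (4)*m^2 + (-10)*m^3 + (-10)*m^4 + (-2)*m^5) * h13 - ((-1) + (4)*m + (2)*m^2 + (-11)*m^3 + (-10)*m^4 + (-2)*m^5) * h14 - ((1)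 + (-4)*m + (8)*m^3 + (-4)*m^5 + (-1)*m^6) * h16 - ((2)*m + (-1)*m^2 + (-7)*m^3 + (-5)*m^4 + (-1)*m^5) * h17 - ((2)*m + (-3)*m^2 + (-10)*m^3 + (-6)*m^4 + (-1)*m^5) * h18 - ((1) + (-4)*m + (-9)*m^2 + (16)*m^3 + (34)*m^4 + (13)*m^5 + (-2)*m^6 + (-1)*m^7) * h19 - ((3)*m + (-3)*m^2 + (-14)*m^3 + (-5)*m^4 + (3)*m^5 + (1)*m^6) * h20 - ((1) + (-4)*m + (-2)*m^2 + (11)*m^3 + (10)*m^4 + (2)*m^5) * h21 - ((1) + (-4)*m + (-4)*m^2 + (10)*m^3 + (10)*m^4 + (2)*m^5) * h22 - ((2)*m + (-1)*m^2 + (-3)*m^3 + (-1)*m^4) * h23)).resolve_left hq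
  have a4 : x 4 + x 12 + x 20 = 0 := (mul_eq_zero.1 (show pp m * (x 4 + x 12 + x 20) = 0 by
    unfold pp; linear_combination - ((-1) + (-2)*m + (10)*m^2 + (2)*m^3 + (-10)*m^4 + (-6)*m^5 + (-1)*m^6) * h0 - ((-1) + (2)*m + (4)*m^2 + (-3)*m^3 + (-6)*m^4 + (-2)*m^5) * h1 - ((-1) + (2)*m + (4)*m^2 + (-3)*m^3 + (-6)*m^4 + (-2)*m^5) * h2 - ((-3)*m + (-3)*m^2 + (11)*m^3 + (5)*m^4 + (-3)*m^5 + (-1)*m^6) * h3 - ((-1) + (-2)*m + (13)*m^2 + (5)*m^3 + (-21)*m^4 + (-11)*m^5 + (2)*m^6 + (1)*m^7) * h4 - ((-1) + (1)*m + (2)*m^2 + (-4)*m^3 + (1)*m^4 + (4)*m^5 + (1)*m^6) * h5 - ((-1) + (1)*m + (2)*m^2 + (-4)*m^3 + (1)*m^4 + (4)*m^5 + (1)*m^6) * h6 - ((-2) + (6)*m + (2)*m^2 + (-8)*m^3 + (-4)*m^4) * h7 - ((-1) + (-2)*m + (10)*m^2 + (2)*m^3 + (-10)*m^4 + (-6)*m^5 + (-1)*m^6)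 * h8 - ((-1) + (2)*m + (4)*m^2 + (-3)*m^3 + (-6)*m^4 + (-2)*m^5) * h9 - ((-1) + (2)*m + (4)*m^2 + (-3)*m^3 + (-6)*m^4 + (-2)*m^5) * h10 - ((-3)*m + (-3)*m^2 + (11)*m^3 + (5)*m^4 + (-3)*m^5 + (-1)*m^6) * h11 - ((-1) + (-2)*m + (13)*m^2 + (5)*m^3 + (-21)*m^4 + (-11)*m^5 + (2)*m^6 + (1)*m^7) * h12 - ((-1) + (1)*m + (2)*m^2 + (-4)*m^3 + (1)*m^4 + (4)*m^5 + (1)*m^6) * h13 - ((-1) + (1)*m + (2)*m^2 + (-4)*m^3 + (1)*m^4 + (4)*m^5 + (1)*m^6) * h14 - ((-2) + (6)*m + (2)*m^2 + (-8)*m^3 + (-4)*m^4) * h15 - ((-1) + (-2)*m + (10)*m^2 + (2)*m^3 + (-10)*m^4 + (-6)*m^5 + (-1)*m^6) * h16 - ((-1) + (2)*m + (4)*m^2 + (-3)*m^3 + (-6)*m^4 + (-2)*m^5) * h17 - ((-1) + (2)*m + (4)*m^2 + (-3)*m^3 + (-6)*m^4 + (-2)*m^5) * h18 - ((-3)*m + (-3)*m^2 + (11)*m^3 + (5)*m^4 + (-3)*m^5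 + (-1)*m^6) * h19 - ((-1) + (-2)*m + (13)*m^2 + (5)*m^3 + (-21)*m^4 + (-11)*m^5 + (2)*m^6 + (1)*m^7) * h20 - ((-1) + (1)*m + (2)*m^2 + (-4)*m^3 + (1)*m^4 + (4)*m^5 + (1)*m^6) * h21 - ((-1) + (1)*m + (2)*m^2 + (-4)*m^3 + (1)*m^4 + (4)*m^5 + (1)*m^6) * h22 - ((-2) + (6)*m + (2)*m^2 + (-8)*m^3 + (-4)*m^4) * h23)).resolve_left hp
  have b4 : x 4 - x 12 = 0 := (mul_eq_zero.1 (show qq m * (x 4 - x 12) = 0 by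
    unfold qq; linear_combination - ((-1) + (1)*m + (7)*m^2 + (-1)*m^3 + (-10)*m^4 + (-6)*m^5 + (-1)*m^6) * h0 - ((-1) + (4)*m + (2)*m^2 + (-11)*m^3 + (-10)*m^4 + (-2)*m^5) * h1 - ((-1) + (3)*m + (3)*m^2 + (-7)*m^3 + (-8)*m^4 + (-2)*m^5) * h2 - ((-3)*m + (3)*m^2 + (14)*m^3 + (5)*m^4 + (-3)*m^5 + (-1)*m^6) * h3 - ((-1) + (1)*m + (10)*m^2 + (-4)*m^3 + (-24)*m^4 + (-11)*m^5 + (2)*m^6 + (1)*m^7) * h4 - ((-1) + (3)*m + (1)*m^2 + (-5)*m^3 + (1)*m^4 + (4)*m^5 + (1)*m^6) * h5 - ((-1) + (2)*m + (3)*m^2 + (-3)*m^3 + (1)*m^4 + (4)*m^5 + (1)*m^6) * h6 - ((1) + (-1)*m + (-7)*m^2 + (1)*m^3 + (10)*m^4 + (6)*m^5 + (1)*m^6) * h8 - ((1) + (-3)*m + (-3)*m^2 + (7)*m^3 + (8)*m^4 + (2)*m^5) * h9 - ((1) + (-4)*m + (-2)*m^2 + (11)*m^3 + (10)*m^4 + (2)*m^5) * h10 - ((3)*m +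 (-3)*m^2 + (-14)*m^3 + (-5)*m^4 + (3)*m^5 + (1)*m^6) * h11 - ((1) + (-1)*m + (-10)*m^2 + (4)*m^3 + (24)*m^4 + (11)*m^5 + (-2)*m^6 + (-1)*m^7) * h12 - ((1) + (-2)*m + (-3)*m^2 + (3)*m^3 + (-1)*m^4 + (-4)*m^5 + (-1)*m^6) * h13 - ((1) + (-3)*m + (-1)*m^2 + (5)*m^3 + (-1)*m^4 + (-4)*m^5 + (-1)*m^6) * h14 - ((1) + (-3)*m + (-1)*m^2 + (4)*m^3 + (2)*m^4) * h15 - ((-1)*m + (1)*m^2 + (4)*m^3 + (2)*m^4) * h17 - ((1)*m + (-1)*m^2 + (-4)*m^3 + (-2)*m^4) * h18 - ((-1)*m + (2)*m^2 + (2)*m^3) * h21 - ((1)*m + (-2)*m^2 + (-2)*m^3) * h22 - ((-1) + (3)*m + (1)*m^2 + (-4)*m^3 + (-2)*m^4) * h23)).resolve_left hq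
  have c4 : x 12 - x 20 = 0 := (mul_eq_zero.1 (show qq m * (x 12 - x 20) = 0 by
    unfold qq; linear_combination - ((-1)*m + (1)*m^2 + (4)*m^3 + (2)*m^4) * h1 - ((1)*m + (-1)*m^2 + (-4)*m^3 + (-2)*m^4) * h2 - ((-1)*m + (2)*m^2 + (2)*m^3) * h5 - ((1)*m + (-2)*m^2 + (-2)*m^3) * h6 - ((-1) + (3)*m + (1)*m^2 + (-4)*m^3 + (-2)*m^4) * h7 - ((-1) + (1)*m + (7)*m^2 + (-1)*m^3 + (-10)*m^4 + (-6)*m^5 + (-1)*m^6) * h8 - ((-1) + (4)*m + (2)*m^2 + (-11)*m^3 + (-10)*m^4 + (-2)*m^5) * h9 - ((-1) + (3)*m + (3)*m^2 + (-7)*m^3 + (-8)*m^4 + (-2)*m^5) * h10 - ((-3)*m + (3)*m^2 + (14)*m^3 + (5)*m^4 + (-3)*m^5 + (-1)*m^6) * h11 - ((-1) + (1)*m + (10)*m^2 + (-4)*m^3 + (-24)*m^4 + (-11)*m^5 + (2)*m^6 + (1)*m^7) * h12 - ((-1) + (3)*m + (1)*m^2 + (-5)*m^3 + (1)*m^4 + (4)*m^5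 + (1)*m^6) * h13 - ((-1) + (2)*m + (3)*m^2 + (-3)*m^3 + (1)*m^4 + (4)*m^5 + (1)*m^6) * h14 - ((1) + (-1)*m + (-7)*m^2 + (1)*m^3 + (10)*m^4 + (6)*m^5 + (1)*m^6) * h16 - ((1) + (-3)*m + (-3)*m^2 + (7)*m^3 + (8)*m^4 + (2)*m^5) * h17 - ((1) + (-4)*m + (-2)*m^2 + (11)*m^3 + (10)*m^4 + (2)*m^5) * h18 - ((3)*m + (-3)*m^2 + (-14)*m^3 + (-5)*m^4 + (3)*m^5 + (1)*m^6) * h19 - ((1) + (-1)*m + (-10)*m^2 + (4)*m^3 + (24)*m^4 + (11)*m^5 + (-2)*m^6 + (-1)*m^7) * h20 - ((1) + (-2)*m + (-3)*m^2 + (3)*m^3 + (-1)*m^4 + (-4)*m^5 + (-1)*m^6) * h21 - ((1) + (-3)*m + (-1)*m^2 + (5)*m^3 + (-1)*m^4 + (-4)*m^5 + (-1)*m^6) * h22 - ((1) + (-3)*m + (-1)*m^2 + (4)*m^3 + (2)*m^4) * h23)).resolve_left hq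
  have a5 : x 5 + x 13 + x 21 = 0 := (mul_eq_zero.1 (show pp m * (x 5 + x 13 + x 21) = 0 by
    unfold pp; linear_combination - ((-1) + (6)*m^2 + (2)*m^3 + (-8)*m^4 + (-6)*m^5 + (-1)*m^6) * h0 - ((-1) + (3)*m + (4)*m^2 + (-9)*m^3 + (-8)*m^4 + (-1)*m^5) * h1 - ((-4)*m + (-1)*m^2 + (13)*m^3 + (7)*m^4 + (-2)*m^5 + (-1)*m^6) * h2 - ((-1) + (4)*m + (6)*m^2 + (-9)*m^3 + (-10)*m^4 + (-2)*m^5) * h3 - ((-1) + (1)*m + (2)*m^2 + (-4)*m^3 + (1)*m^4 + (4)*m^5 + (1)*m^6) * h4 - ((-1) + (1)*m + (10)*m^2 + (-22)*m^4 + (-11)*m^5 + (2)*m^6 + (1)*m^7) * h5 - ((-1) + (2)*m + (3)*m^2 + (-5)*m^3 + (4)*m^5 + (1)*m^6) * h6 - ((-1) + (3)*m^2 + (1)*m^3 + (-2)*m^4 + (-1)*m^5) * h7 - ((-1) + (6)*m^2 + (2)*m^3 + (-8)*m^4 + (-6)*m^5 + (-1)*m^6) * h8 - ((-1) + (3)*m + (4)*m^2 + (-9)*m^3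 + (-8)*m^4 + (-1)*m^5) * h9 - ((-4)*m + (-1)*m^2 + (13)*m^3 + (7)*m^4 + (-2)*m^5 + (-1)*m^6) * h10 - ((-1) + (4)*m + (6)*m^2 + (-9)*m^3 + (-10)*m^4 + (-2)*m^5) * h11 - ((-1) + (1)*m + (2)*m^2 + (-4)*m^3 + (1)*m^4 + (4)*m^5 + (1)*m^6) * h12 - ((-1) + (1)*m + (10)*m^2 + (-22)*m^4 + (-11)*m^5 + (2)*m^6 + (1)*m^7) * h13 - ((-1) + (2)*m + (3)*m^2 + (-5)*m^3 + (4)*m^5 + (1)*m^6) * h14 - ((-1) + (3)*m^2 + (1)*m^3 + (-2)*m^4 + (-1)*m^5) * h15 - ((-1) + (6)*m^2 + (2)*m^3 + (-8)*m^4 + (-6)*m^5 + (-1)*m^6) * h16 - ((-1) + (3)*m + (4)*m^2 + (-9)*m^3 + (-8)*m^4 + (-1)*m^5) * h17 - ((-4)*m + (-1)*m^2 + (13)*m^3 + (7)*m^4 + (-2)*m^5 + (-1)*m^6) * h18 - ((-1) + (4)*m + (6)*m^2 + (-9)*m^3 + (-10)*m^4 + (-2)*m^5) * h19 - ((-1) + (1)*m + (2)*m^2 + (-4)*m^3 + (1)*m^4 +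 (4)*m^5 + (1)*m^6) * h20 - ((-1) + (1)*m + (10)*m^2 + (-22)*m^4 + (-11)*m^5 + (2)*m^6 + (1)*m^7) * h21 - ((-1) + (2)*m + (3)*m^2 + (-5)*m^3 + (4)*m^5 + (1)*m^6) * h22 - ((-1) + (3)*m^2 + (1)*m^3 + (-2)*m^4 + (-1)*m^5) * h23)).resolve_left hp
  have b5 : x 5 - x 13 = 0 := (mul_eq_zero.1 (show qq m * (x 5 - x 13) = 0 by
    unfold qq; linear_combination - ((-1) + (1)*m + (7)*m^2 + (-1)*m^3 + (-10)*m^4 + (-6)*m^5 + (-1)*m^6) * h0 - ((-1) + (3)*m + (6)*m^2 + (-3)*m^3 + (-8)*m^4 + (-3)*m^5) * h1 - ((-3)*m + (10)*m^3 + (5)*m^4 + (-2)*m^5 + (-1)*m^6) * h2 - ((-1) + (4)*m + (2)*m^2 + (-11)*m^3 + (-10)*m^4 + (-2)*m^5) * h3 - ((-1) + (2)*m + (3)*m^2 + (-3)*m^3 + (1)*m^4 + (4)*m^5 + (1)*m^6) * h4 - ((-1) + (1)*m + (13)*m^2 + (-3)*m^3 + (-25)*m^4 + (-11)*m^5 + (2)*m^6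 + (1)*m^7) * h5 - ((-1) + (3)*m + (-2)*m^2 + (-6)*m^3 + (2)*m^4 + (4)*m^5 + (1)*m^6) * h6 - ((-1) + (6)*m + (-1)*m^2 + (-9)*m^3 + (-2)*m^4 + (1)*m^5) * h7 - ((1) + (-2)*m + (-5)*m^2 + (1)*m^3 + (9)*m^4 + (6)*m^5 + (1)*m^6) * h8 - ((1) + (-3)*m + (-5)*m^2 + (6)*m^3 + (8)*m^4 + (2)*m^5) * h9 - ((2)*m + (-1)*m^2 + (-7)*m^3 + (-3)*m^4 + (2)*m^5 + (1)*m^6) * h10 - ((1) + (-4)*m + (-4)*m^2 + (10)*m^3 + (10)*m^4 + (2)*m^5) * h11 - ((1) + (-3)*m + (-1)*m^2 + (5)*m^3 + (-1)*m^4 + (-4)*m^5 + (-1)*m^6) * h12 - ((1) + (-1)*m + (-13)*m^2 + (3)*m^3 + (25)*m^4 + (11)*m^5 + (-2)*m^6 + (-1)*m^7) * h13 - ((1) + (-4)*m + (1)*m^2 + (7)*m^3 + (-1)*m^4 + (-4)*m^5 + (-1)*m^6) * h14 - ((1) + (-3)*m + (-1)*m^2 + (4)*m^3 + (2)*m^4) * h15 - ((1)*m + (-2)*m^2 + (1)*m^4) * h16 -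 ((-1)*m^2 + (-3)*m^3 + (1)*m^5) * h17 - ((1)*m + (1)*m^2 + (-3)*m^3 + (-2)*m^4) * h18 - ((2)*m^2 + (1)*m^3) * h19 - ((1)*m + (-2)*m^2 + (-2)*m^3) * h20 - ((1)*m + (1)*m^2 + (-1)*m^3 + (-1)*m^4) * h22 - ((-3)*m + (2)*m^2 + (5)*m^3 + (-1)*m^5) * h23)).resolve_left hq
  have c5 : x 13 - x 21 = 0 := (mul_eq_zero.1 (show qq m * (x 13 - x 21) = 0 by
    unfold qq; linear_combination - ((1)*m + (-2)*m^2 + (1)*m^4) * h0 - ((-1)*m^2 + (-3)*m^3 + (1)*m^5) * h1 - ((1)*m + (1)*m^2 + (-3)*m^3 + (-2)*m^4) * h2 - ((2)*m^2 + (1)*m^3) * h3 - ((1)*m + (-2)*m^2 + (-2)*m^3) * h4 - ((1)*m + (1)*m^2 + (-1)*m^3 + (-1)*m^4) * h6 - ((-3)*m + (2)*m^2 + (5)*m^3 + (-1)*m^5) * h7 - ((-1) + (1)*m + (7)*m^2 + (-1)*m^3 + (-10)*m^4 + (-6)*m^5 + (-1)*m^6) * h8 - ((-1) + (3)*m + (6)*m^2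 + (-3)*m^3 + (-8)*m^4 + (-3)*m^5) * h9 - ((-3)*m + (10)*m^3 + (5)*m^4 + (-2)*m^5 + (-1)*m^6) * h10 - ((-1) + (4)*m + (2)*m^2 + (-11)*m^3 + (-10)*m^4 + (-2)*m^5) * h11 - ((-1) + (2)*m + (3)*m^2 + (-3)*m^3 + (1)*m^4 + (4)*m^5 + (1)*m^6) * h12 - ((-1) + (1)*m + (13)*m^2 + (-3)*m^3 + (-25)*m^4 + (-11)*m^5 + (2)*m^6 + (1)*m^7) * h13 - ((-1) + (3)*m + (-2)*m^2 + (-6)*m^3 + (2)*m^4 + (4)*m^5 + (1)*m^6) * h14 - ((-1) + (6)*m + (-1)*m^2 + (-9)*m^3 + (-2)*m^4 + (1)*m^5) * h15 - ((1) + (-2)*m + (-5)*m^2 + (1)*m^3 + (9)*m^4 + (6)*m^5 + (1)*m^6) * h16 - ((1) + (-3)*m + (-5)*m^2 + (6)*m^3 + (8)*m^4 + (2)*m^5) * h17 - ((2)*m + (-1)*m^2 + (-7)*m^3 + (-3)*m^4 + (2)*m^5 + (1)*m^6) * h18 - ((1) + (-4)*m + (-4)*m^2 + (10)*m^3 + (10)*m^4 + (2)*m^5) * h19 - ((1) + (-3)*m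 + (-1)*m^2 + (5)*m^3 + (-1)*m^4 + (-4)*m^5 + (-1)*m^6) * h20 - ((1) + (-1)*m + (-13)*m^2 + (3)*m^3 + (25)*m^4 + (11)*m^5 + (-2)*m^6 + (-1)*m^7) * h21 - ((1) + (-4)*m + (1)*m^2 + (7)*m^3 + (-1)*m^4 + (-4)*m^5 + (-1)*m^6) * h22 - ((1) + (-3)*m + (-1)*m^2 + (4)*m^3 + (2)*m^4) * h23)).resolve_left hq
  have a6 : x 6 + x 14 + x 22 = 0 := (mul_eq_zero.1 (show pp m * (x 6 + x 14 + x 22) = 0 by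
    unfold pp; linear_combination - ((-1) + (6)*m^2 + (2)*m^3 + (-8)*m^4 + (-6)*m^5 + (-1)*m^6) * h0 - ((-4)*m + (-1)*m^2 + (13)*m^3 + (7)*m^4 + (-2)*m^5 + (-1)*m^6) * h1 - ((-1) + (3)*m + (4)*m^2 + (-9)*m^3 + (-8)*m^4 + (-1)*m^5) * h2 - ((-1) + (4)*m + (6)*m^2 + (-9)*m^3 + (-10)*m^4 + (-2)*m^5) * h3 - ((-1) + (1)*m + (2)*m^2 + (-4)*m^3 + (1)*m^4 + (4)*m^5 + (1)*m^6) * h4 - ((-1) + (2)*m + (3)*m^2 + (-5)*m^3 + (4)*m^5 + (1)*m^6) * h5 - ((-1) + (1)*m + (10)*m^2 + (-22)*m^4 + (-11)*m^5 + (2)*m^6 + (1)*m^7) * h6 - ((-1) + (3)*m^2 + (1)*m^3 + (-2)*m^4 + (-1)*m^5) * h7 - ((-1) + (6)*m^2 + (2)*m^3 + (-8)*m^4 + (-6)*m^5 + (-1)*m^6) * h8 - ((-4)*m + (-1)*m^2 + (13)*m^3 + (7)*m^4 + (-2)*m^5 + (-1)*m^6) * h9 - ((-1) + (3)*m + (4)*m^2 + (-9)*m^3 + (-8)*m^4 + (-1)*m^5)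 * h10 - ((-1) + (4)*m + (6)*m^2 + (-9)*m^3 + (-10)*m^4 + (-2)*m^5) * h11 - ((-1) + (1)*m + (2)*m^2 + (-4)*m^3 + (1)*m^4 + (4)*m^5 + (1)*m^6) * h12 - ((-1) + (2)*m + (3)*m^2 + (-5)*m^3 + (4)*m^5 + (1)*m^6) * h13 - ((-1) + (1)*m + (10)*m^2 + (-22)*m^4 + (-11)*m^5 + (2)*m^6 + (1)*m^7) * h14 - ((-1) + (3)*m^2 + (1)*m^3 + (-2)*m^4 + (-1)*m^5) * h15 - ((-1) + (6)*m^2 + (2)*m^3 + (-8)*m^4 + (-6)*m^5 + (-1)*m^6) * h16 - ((-4)*m + (-1)*m^2 + (13)*m^3 + (7)*m^4 + (-2)*m^5 + (-1)*m^6) * h17 - ((-1) + (3)*m + (4)*m^2 + (-9)*m^3 + (-8)*m^4 + (-1)*m^5) * h18 - ((-1) + (4)*m + (6)*m^2 + (-9)*m^3 + (-10)*m^4 + (-2)*m^5) * h19 - ((-1) + (1)*m + (2)*m^2 + (-4)*m^3 + (1)*m^4 + (4)*m^5 + (1)*m^6) * h20 - ((-1) + (2)*m + (3)*m^2 + (-5)*m^3 + (4)*m^5 + (1)*m^6) * h21 - ((-1)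 + (1)*m + (10)*m^2 + (-22)*m^4 + (-11)*m^5 + (2)*m^6 + (1)*m^7) * h22 - ((-1) + (3)*m^2 + (1)*m^3 + (-2)*m^4 + (-1)*m^5) * h23)).resolve_left hp
  have b6 : x 6 - x 14 = 0 := (mul_eq_zero.1 (show qq m * (x 6 - x 14) = 0 by
    unfold qq; linear_combination - ((-1) + (2)*m + (5)*m^2 + (-1)*m^3 + (-9)*m^4 + (-6)*m^5 + (-1)*m^6) * h0 - ((-2)*m + (1)*m^2 + (7)*m^3 + (3)*m^4 + (-2)*m^5 + (-1)*m^6) * h1 - ((-1) + (3)*m + (5)*m^2 + (-6)*m^3 + (-8)*m^4 + (-2)*m^5) * h2 - ((-1) + (4)*m + (4)*m^2 + (-10)*m^3 + (-10)*m^4 + (-2)*m^5) * h3 - ((-1) + (3)*m + (1)*m^2 + (-5)*m^3 + (1)*m^4 + (4)*m^5 + (1)*m^6) * h4 - ((-1) + (4)*m + (-1)*m^2 + (-7)*m^3 + (1)*m^4 + (4)*m^5 + (1)*m^6) * h5 - ((-1) + (1)*m + (13)*m^2 + (-3)*m^3 + (-25)*m^4 + (-11)*m^5 + (2)*m^6 + (1)*m^7)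 * h6 - ((1) + (-6)*m + (1)*m^2 + (9)*m^3 + (2)*m^4 + (-1)*m^5) * h7 - ((1) + (-1)*m + (-7)*m^2 + (1)*m^3 + (10)*m^4 + (6)*m^5 + (1)*m^6) * h8 - ((3)*m + (-10)*m^3 + (-5)*m^4 + (2)*m^5 + (1)*m^6) * h9 - ((1) + (-3)*m + (-6)*m^2 + (3)*m^3 + (8)*m^4 + (3)*m^5) * h10 - ((1) + (-4)*m + (-2)*m^2 + (11)*m^3 + (10)*m^4 + (2)*m^5) * h11 - ((1) + (-2)*m + (-3)*m^2 + (3)*m^3 + (-1)*m^4 + (-4)*m^5 + (-1)*m^6) * h12 - ((1) + (-3)*m + (2)*m^2 + (6)*m^3 + (-2)*m^4 + (-4)*m^5 + (-1)*m^6) * h13 - ((1) + (-1)*m + (-13)*m^2 + (3)*m^3 + (25)*m^4 + (11)*m^5 + (-2)*m^6 + (-1)*m^7) * h14 - ((3)*m + (-2)*m^2 + (-5)*m^3 + (1)*m^5) * h15 - ((-1)*m + (2)*m^2 + (-1)*m^4) * h16 - ((-1)*m + (-1)*m^2 + (3)*m^3 + (2)*m^4) * h17 - ((1)*m^2 + (3)*m^3 + (-1)*m^5) * h18 - ((-2)*m^2 + (-1)*m^3)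 * h19 - ((-1)*m + (2)*m^2 + (2)*m^3) * h20 - ((-1)*m + (-1)*m^2 + (1)*m^3 + (1)*m^4) * h21 - ((-1) + (3)*m + (1)*m^2 + (-4)*m^3 + (-2)*m^4) * h23)).resolve_left hq
  have c6 : x 14 - x 22 = 0 := (mul_eq_zero.1 (show qq m * (x 14 - x 22) = 0 by
    unfold qq; linear_combination - ((-1)*m + (2)*m^2 + (-1)*m^4) * h0 - ((-1)*m + (-1)*m^2 + (3)*m^3 + (2)*m^4) * h1 - ((1)*m^2 + (3)*m^3 + (-1)*m^5) * h2 - ((-2)*m^2 + (-1)*m^3) * h3 - ((-1)*m + (2)*m^2 + (2)*m^3) * h4 - ((-1)*m + (-1)*m^2 + (1)*m^3 + (1)*m^4) * h5 - ((-1) + (3)*m + (1)*m^2 + (-4)*m^3 + (-2)*m^4) * h7 - ((-1) + (2)*m + (5)*m^2 + (-1)*m^3 + (-9)*m^4 + (-6)*m^5 + (-1)*m^6) * h8 - ((-2)*m + (1)*m^2 + (7)*m^3 + (3)*m^4 + (-2)*m^5 + (-1)*m^6) * h9 - ((-1) + (3)*m + (5)*m^2 + (-6)*m^3 + (-8)*m^4 +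 (-2)*m^5) * h10 - ((-1) + (4)*m + (4)*m^2 + (-10)*m^3 + (-10)*m^4 + (-2)*m^5) * h11 - ((-1) + (3)*m + (1)*m^2 + (-5)*m^3 + (1)*m^4 + (4)*m^5 + (1)*m^6) * h12 - ((-1) + (4)*m + (-1)*m^2 + (-7)*m^3 + (1)*m^4 + (4)*m^5 + (1)*m^6) * h13 - ((-1) + (1)*m + (13)*m^2 + (-3)*m^3 + (-25)*m^4 + (-11)*m^5 + (2)*m^6 + (1)*m^7) * h14 - ((1) + (-6)*m + (1)*m^2 + (9)*m^3 + (2)*m^4 + (-1)*m^5) * h15 - ((1) + (-1)*m + (-7)*m^2 + (1)*m^3 + (10)*m^4 + (6)*m^5 + (1)*m^6) * h16 - ((3)*m + (-10)*m^3 + (-5)*m^4 + (2)*m^5 + (1)*m^6) * h17 - ((1) + (-3)*m + (-6)*m^2 + (3)*m^3 + (8)*m^4 + (3)*m^5) * h18 - ((1) + (-4)*m + (-2)*m^2 + (11)*m^3 + (10)*m^4 + (2)*m^5) * h19 - ((1) + (-2)*m + (-3)*m^2 + (3)*m^3 + (-1)*m^4 + (-4)*m^5 + (-1)*m^6) * h20 - ((1) + (-3)*m + (2)*m^2 + (6)*m^3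 + (-2)*m^4 + (-4)*m^5 + (-1)*m^6) * h21 - ((1) + (-1)*m + (-13)*m^2 + (3)*m^3 + (25)*m^4 + (11)*m^5 + (-2)*m^6 + (-1)*m^7) * h22 - ((3)*m + (-2)*m^2 + (-5)*m^3 + (1)*m^5) * h23)).resolve_left hq
  have a7 : x 7 + x 15 + x 23 = 0 := (mul_eq_zero.1 (show pp m * (x 7 + x 15 + x 23) = 0 by
    unfold pp; linear_combination - ((-2) + (6)*m + (-2)*m^2 + (-6)*m^3 + (2)*m^4 + (2)*m^5) * h0 - ((-1) + (1)*m + (7)*m^2 + (-4)*m^3 + (-9)*m^4 + (-1)*m^5 + (1)*m^6) * h1 - ((-1) + (1)*m + (7)*m^2 + (-4)*m^3 + (-9)*m^4 + (-1)*m^5 + (1)*m^6) * h2 - ((-4)*m + (2)*m^2 + (6)*m^3 + (2)*m^4) * h3 - ((-2) + (6)*m + (2)*m^2 + (-8)*m^3 + (-4)*m^4) * h4 - ((-1) + (3)*m^2 + (1)*m^3 + (-2)*m^4 + (-1)*m^5) * h5 - ((-1) + (3)*m^2 + (1)*m^3 + (-2)*m^4 + (-1)*m^5) * h6 - ((-1) + (-5)*m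 + (20)*m^2 + (6)*m^3 + (-26)*m^4 + (-14)*m^5 + (1)*m^6 + (1)*m^7) * h7 - ((-2) + (6)*m + (-2)*m^2 + (-6)*m^3 + (2)*m^4 + (2)*m^5) * h8 - ((-1) + (1)*m + (7)*m^2 + (-4)*m^3 + (-9)*m^4 + (-1)*m^5 + (1)*m^6) * h9 - ((-1) + (1)*m + (7)*m^2 + (-4)*m^3 + (-9)*m^4 + (-1)*m^5 + (1)*m^6) * h10 - ((-4)*m + (2)*m^2 + (6)*m^3 + (2)*m^4) * h11 - ((-2) + (6)*m + (2)*m^2 + (-8)*m^3 + (-4)*m^4) * h12 - ((-1) + (3)*m^2 + (1)*m^3 + (-2)*m^4 + (-1)*m^5) * h13 - ((-1) + (3)*m^2 + (1)*m^3 + (-2)*m^4 + (-1)*m^5) * h14 - ((-1) + (-5)*m + (20)*m^2 + (6)*m^3 + (-26)*m^4 + (-14)*m^5 + (1)*m^6 + (1)*m^7) * h15 - ((-2) + (6)*m + (-2)*m^2 + (-6)*m^3 + (2)*m^4 + (2)*m^5) * h16 - ((-1) + (1)*m + (7)*m^2 + (-4)*m^3 + (-9)*m^4 + (-1)*m^5 + (1)*m^6) * h17 - ((-1) + (1)*m + (7)*m^2 +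 (-4)*m^3 + (-9)*m^4 + (-1)*m^5 + (1)*m^6) * h18 - ((-4)*m + (2)*m^2 + (6)*m^3 + (2)*m^4) * h19 - ((-2) + (6)*m + (2)*m^2 + (-8)*m^3 + (-4)*m^4) * h20 - ((-1) + (3)*m^2 + (1)*m^3 + (-2)*m^4 + (-1)*m^5) * h21 - ((-1) + (3)*m^2 + (1)*m^3 + (-2)*m^4 + (-1)*m^5) * h22 - ((-1) + (-5)*m + (20)*m^2 + (6)*m^3 + (-26)*m^4 + (-14)*m^5 + (1)*m^6 + (1)*m^7) * h23)).resolve_left hp
  have b7 : x 7 - x 15 = 0 := (mul_eq_zero.1 (show qq m * (x 7 - x 15) = 0 by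
    unfold qq; linear_combination - ((-1) + (3)*m + (-1)*m^2 + (-3)*m^3 + (1)*m^4 + (1)*m^5) * h0 - ((-1) + (3)*m + (6)*m^2 + (-7)*m^3 + (-10)*m^4 + (-1)*m^5 + (1)*m^6) * h1 - ((-2)*m + (1)*m^2 + (3)*m^3 + (1)*m^4) * h2 - ((-2)*m + (1)*m^2 + (3)*m^3 + (1)*m^4) * h3 - ((-1) + (3)*m + (1)*m^2 + (-4)*m^3 + (-2)*m^4) * h4 - ((-1) + (3)*m + (1)*m^2 + (-4)*m^3 + (-2)*m^4) * h5 - ((-3)*m + (2)*m^2 + (5)*m^3 + (-1)*m^5) * h6 - ((-1) + (1)*m + (17)*m^2 + (-3)*m^3 + (-29)*m^4 + (-14)*m^5 + (1)*m^6 + (1)*m^7) * h7 - ((1) + (-5)*m + (-5)*m^2 + (10)*m^3 + (11)*m^4 + (1)*m^5 + (-1)*m^6) * h9 - ((-1) + (5)*m + (5)*m^2 + (-10)*m^3 + (-11)*m^4 + (-1)*m^5 + (1)*m^6) * h10 - ((1) + (-6)*m + (1)*m^2 + (9)*m^3 + (2)*m^4 + (-1)*m^5) * h13 - ((-1) + (6)*m + (-1)*m^2 + (-9)*m^3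 + (-2)*m^4 + (1)*m^5) * h14 - ((1) + (-1)*m + (-17)*m^2 + (3)*m^3 + (29)*m^4 + (14)*m^5 + (-1)*m^6 + (-1)*m^7) * h15 - ((1) + (-3)*m + (1)*m^2 + (3)*m^3 + (-1)*m^4 + (-1)*m^5) * h16 - ((2)*m + (-1)*m^2 + (-3)*m^3 + (-1)*m^4) * h17 - ((1) + (-3)*m + (-6)*m^2 + (7)*m^3 + (10)*m^4 + (1)*m^5 + (-1)*m^6) * h18 - ((2)*m + (-1)*m^2 + (-3)*m^3 + (-1)*m^4) * h19 - ((1) + (-3)*m + (-1)*m^2 + (4)*m^3 + (2)*m^4) * h20 - ((3)*m + (-2)*m^2 + (-5)*m^3 + (1)*m^5) * h21 - ((1) + (-3)*m + (-1)*m^2 + (4)*m^3 + (2)*m^4) * h22)).resolve_left hq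
  have c7 : x 15 - x 23 = 0 := (mul_eq_zero.1 (show qq m * (x 15 - x 23) = 0 by
    unfold qq; linear_combination - ((1) + (-3)*m + (1)*m^2 + (3)*m^3 + (-1)*m^4 + (-1)*m^5) * h0 - ((2)*m + (-1)*m^2 + (-3)*m^3 + (-1)*m^4) * h1 - ((1) + (-3)*m + (-6)*m^2 + (7)*m^3 + (10)*m^4 + (1)*m^5 + (-1)*m^6) * h2 - ((2)*m + (-1)*m^2 + (-3)*m^3 + (-1)*m^4) * h3 - ((1) + (-3)*m + (-1)*m^2 + (4)*m^3 + (2)*m^4) * h4 - ((3)*m + (-2)*m^2 + (-5)*m^3 + (1)*m^5) * h5 - ((1) + (-3)*m + (-1)*m^2 + (4)*m^3 + (2)*m^4) * h6 - ((-1) + (3)*m + (-1)*m^2 + (-3)*m^3 + (1)*m^4 + (1)*m^5) * h8 - ((-1) + (3)*m + (6)*m^2 + (-7)*m^3 + (-10)*m^4 + (-1)*m^5 + (1)*m^6) * h9 - ((-2)*m + (1)*m^2 + (3)*m^3 + (1)*m^4) * h10 - ((-2)*m + (1)*m^2 + (3)*m^3 + (1)*m^4) * h11 - ((-1) + (3)*m + (1)*m^2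 + (-4)*m^3 + (-2)*m^4) * h12 - ((-1) + (3)*m + (1)*m^2 + (-4)*m^3 + (-2)*m^4) * h13 - ((-3)*m + (2)*m^2 + (5)*m^3 + (-1)*m^5) * h14 - ((-1) + (1)*m + (17)*m^2 + (-3)*m^3 + (-29)*m^4 + (-14)*m^5 + (1)*m^6 + (1)*m^7) * h15 - ((1) + (-5)*m + (-5)*m^2 + (10)*m^3 + (11)*m^4 + (1)*m^5 + (-1)*m^6) * h17 - ((-1) + (5)*m + (5)*m^2 + (-10)*m^3 + (-11)*m^4 + (-1)*m^5 + (1)*m^6) * h18 - ((1) + (-6)*m + (1)*m^2 + (9)*m^3 + (2)*m^4 + (-1)*m^5) * h21 - ((-1) + (6)*m + (-1)*m^2 + (-9)*m^3 + (-2)*m^4 + (1)*m^5) * h22 - ((1) + (-1)*m + (-17)*m^2 + (3)*m^3 + (29)*m^4 + (14)*m^5 + (-1)*m^6 + (-1)*m^7) * h23)).resolve_left hq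
  ext i
  fin_cases i <;> simp <;> linarith

def v1 (m : ℝ) : Fin 24 → ℝ := ![((-1) + (4)*m + (-8)*m^3 + (4)*m^5 + (1)*m^6),
    ((-2)*m + (3)*m^2 + (10)*m^3 + (6)*m^4 + (1)*m^5),
    ((-2)*m + (1)*m^2 + (7)*m^3 + (5)*m^4 + (1)*m^5),
    ((-1) + (4)*m + (9)*m^2 + (-16)*m^3 + (-34)*m^4 + (-13)*m^5 + (2)*m^6 + (1)*m^7),
    ((-3)*m + (3)*m^2 + (14)*m^3 + (5)*m^4 + (-3)*m^5 + (-1)*m^6),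
    ((-1) + (4)*m + (4)*m^2 + (-10)*m^3 + (-10)*m^4 + (-2)*m^5),
    ((-1) + (4)*m + (2)*m^2 + (-11)*m^3 + (-10)*m^4 + (-2)*m^5),
    (0),
    ((1) + (-4)*m + (8)*m^3 + (-4)*m^5 + (-1)*m^6),
    ((2)*m + (-1)*m^2 + (-7)*m^3 + (-5)*m^4 + (-1)*m^5),
    ((2)*m + (-3)*m^2 + (-10)*m^3 + (-6)*m^4 + (-1)*m^5),
    ((1) + (-4)*m + (-9)*m^2 + (16)*m^3 + (34)*m^4 + (13)*m^5 + (-2)*m^6 + (-1)*m^7),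
    ((3)*m + (-3)*m^2 + (-14)*m^3 + (-5)*m^4 + (3)*m^5 + (1)*m^6),
    ((1) + (-4)*m + (-2)*m^2 + (11)*m^3 + (10)*m^4 + (2)*m^5),
    ((1) + (-4)*m + (-4)*m^2 + (10)*m^3 + (10)*m^4 + (2)*m^5),
    ((2)*m + (-1)*m^2 + (-3)*m^3 + (-1)*m^4),
    (0),
    ((-2)*m^2 + (-3)*m^3 + (-1)*m^4),
    ((2)*m^2 + (3)*m^3 + (1)*m^4),
    (0),
    (0),
    ((-2)*m^2 + (-1)*m^3),
    ((2)*m^2 + (1)*m^3),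
    ((-2)*m + (1)*m^2 + (3)*m^3 + (1)*m^4)]

theorem ev1 (m : ℝ) (h : qq m = 0) : g *ᵥ v1 m = m • v1 m := by
  rw [mv]
  unfold qq at h
  ext i
  fin_cases i <;> simp [v1] <;> first | ring1 | linear_combination h | linear_combination -h

def v2 (m : ℝ) : Fin 24 → ℝ := ![(0),
    ((-2)*m^2 + (-3)*m^3 + (-1)*m^4),
    ((2)*m^2 + (3)*m^3 + (1)*m^4),
    (0),
    (0),
    ((-2)*m^2 + (-1)*m^3),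
    ((2)*m^2 + (1)*m^3),
    ((-2)*m + (1)*m^2 + (3)*m^3 + (1)*m^4),
    ((-1) + (4)*m + (-8)*m^3 + (4)*m^5 + (1)*m^6),
    ((-2)*m + (3)*m^2 + (10)*m^3 + (6)*m^4 + (1)*m^5),
    ((-2)*m + (1)*m^2 + (7)*m^3 + (5)*m^4 + (1)*m^5),
    ((-1) + (4)*m + (9)*m^2 + (-16)*m^3 + (-34)*m^4 + (-13)*m^5 + (2)*m^6 + (1)*m^7),
    ((-3)*m + (3)*m^2 + (14)*m^3 + (5)*m^4 + (-3)*m^5 + (-1)*m^6),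
    ((-1) + (4)*m + (4)*m^2 + (-10)*m^3 + (-10)*m^4 + (-2)*m^5),
    ((-1) + (4)*m + (2)*m^2 + (-11)*m^3 + (-10)*m^4 + (-2)*m^5),
    (0),
    ((1) + (-4)*m + (8)*m^3 + (-4)*m^5 + (-1)*m^6),
    ((2)*m + (-1)*m^2 + (-7)*m^3 + (-5)*m^4 + (-1)*m^5),
    ((2)*m + (-3)*m^2 + (-10)*m^3 + (-6)*m^4 + (-1)*m^5),
    ((1) + (-4)*m + (-9)*m^2 + (16)*m^3 + (34)*m^4 + (13)*m^5 + (-2)*m^6 + (-1)*m^7),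
    ((3)*m + (-3)*m^2 + (-14)*m^3 + (-5)*m^4 + (3)*m^5 + (1)*m^6),
    ((1) + (-4)*m + (-2)*m^2 + (11)*m^3 + (10)*m^4 + (2)*m^5),
    ((1) + (-4)*m + (-4)*m^2 + (10)*m^3 + (10)*m^4 + (2)*m^5),
    ((2)*m + (-1)*m^2 + (-3)*m^3 + (-1)*m^4)]

theorem ev2 (m : ℝ) (h : qq m = 0) : g *ᵥ v2 m = m • v2 m := by
  rw [mv]
  unfold qq at h
  ext i
  fin_cases i <;> simp [v2] <;> first | ring1 | linear_combination h | linear_combination -h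

theorem p_pos (t : ℝ) (h : 0 ≤ t) : 0 < pp (41 / 10 + t) := by
  have : pp (41 / 10 + t) = ((528635887241/100000000) + (163770726447/2500000)*t^1 + (23027600167/250000)*t^2 + (1439922489/25000)*t^3 + (20041547/1000)*t^4 + (1039649/250)*t^5 + (12827/25)*t^6 + (174/5)*t^7 + (1/1)*t^8) := by unfold pp; ring
  rw [this]; positivity

theorem p_neg (t : ℝ) (h : 0 ≤ t) : 0 < pp (-4 - t) := by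
  have : pp (-4 - t) = ((7601/1) + (28080/1)*t^1 + (37801/1)*t^2 + (26238/1)*t^3 + (10598/1)*t^4 + (2590/1)*t^5 + (377/1)*t^6 + (30/1)*t^7 + (1/1)*t^8) := by unfold pp; ring
  rw [this]; positivity

theorem q_neg (t : ℝ) (h : 0 ≤ t) : 0 < qq (-4 - t) := by
  have : qq (-4 - t) = ((8657/1) + (29808/1)*t^1 + (38899/1)*t^2 + (26577/1)*t^3 + (10649/1)*t^4 + (2593/1)*t^5 + (377/1)*t^6 + (30/1)*t^7 + (1/1)*t^8) := by unfold qq; ring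
  rw [this]; positivity

theorem q_sh (t : ℝ) : qq (41 / 10 + t) = ((-83841505759/100000000) + (146716007697/2500000)*t^1 + (22276032667/250000)*t^2 + (1423549989/25000)*t^3 + (19971047/1000)*t^4 + (1038899/250)*t^5 + (12827/25)*t^6 + (174/5)*t^7 + (1/1)*t^8) := by unfold qq; ring

theorem q_mono (t u : ℝ) (h : 0 ≤ t) (hu : t < u) : qq (41 / 10 + t) < qq (41 / 10 + u) := by
  rw [q_sh, q_sh]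
  gcongr

theorem x_pos (t : ℝ) (h : 0 ≤ t) : 0 < v1 (41 / 10 + t) 3 := by
  have : v1 (41 / 10 + t) 3 = ((33706963401/10000000) + (18683691307/1000000)*t^1 + (2023031521/100000)*t^2 + (19776207/2000)*t^3 + (523207/200)*t^4 + (38921/100)*t^5 + (307/10)*t^6 + (1/1)*t^7) := by simp [v1]; ring
  rw [this]; positivity

theorem root : ∃ t : ℝ, 0 ≤ t ∧ qq (41 / 10 + t) = 0 := by
  have hc : ContinuousOn (fun t : ℝ => qq (41 / 10 + t)) (Set.Icc 0 1) := by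
    unfold qq; fun_prop
  obtain ⟨t, ht, h⟩ := intermediate_value_Icc (zero_le_one' ℝ) hc
    (show (0 : ℝ) ∈ Set.Icc _ _ by constructor <;> norm_num [qq])
  exact ⟨t, ht.1, h⟩

theorem result : ∃ (n : ℕ) (s : Fin n → Finset ℕ), Function.Injective s ∧ (∀ i, (s i).Nonempty) ∧
    (∀ i t, t ⊆ s i → t.Nonempty → ∃ j, s j = t) ∧
    (SimpleGraph.fromRel fun i j => (s i ∩ s j).Nonempty).Connected ∧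
    conn s * (conn s)⁻¹ = 1 ∧
    ∃ lam : ℝ, 2 ≤ finrank ℝ (End.eigenspace (toLin' (conn s)⁻¹) lam) ∧
      ∀ mu : ℝ, End.HasEigenvalue (toLin' (conn s)⁻¹) mu → |mu| ≤ lam := by
  refine ⟨24, s, by decide +kernel, by decide +kernel, ?_, ?_, by rw [inv_eq, lg'], ?_⟩
  · have : ∀ i, ∀ t ∈ (s i).powerset, t.Nonempty → ∃ j, s j = t := by decide +kernel
    exact fun i t ht => this i t (Finset.mem_powerset.2 ht)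
  · have h : ∀ i : Fin 24, i = 0 ∨ ∃ j, j < i ∧ (s i ∩ s j).Nonempty := by decide +kernel
    refine (SimpleGraph.connected_iff_exists_forall_reachable _).2 ⟨0, fun i => ?_⟩
    induction i using WellFoundedLT.induction with
    | ind i ih =>
      rcases h i with rfl | ⟨j, hj, h2⟩
      · rfl
      · exact (ih j hj).trans (SimpleGraph.Adj.reachable
          ((SimpleGraph.fromRel_adj _ _ _).2 ⟨hj.ne, Or.inr h2⟩))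
  · obtain ⟨t, ht, hq⟩ := root
    rw [inv_eq]
    refine ⟨41 / 10 + t, ?_, fun mu hmu => ?_⟩
    · have m1 : v1 (41 / 10 + t) ∈ End.eigenspace (toLin' g) (41 / 10 + t) :=
        End.mem_eigenspace_iff.2 (ev1 _ hq)
      have m2 : v2 (41 / 10 + t) ∈ End.eigenspace (toLin' g) (41 / 10 + t) :=
        End.mem_eigenspace_iff.2 (ev2 _ hq)
      have li : LinearIndependent ℝ ![(⟨_, m1⟩ : End.eigenspace (toLin' g) (41 / 10 + t)),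
          ⟨_, m2⟩] := by
        refine LinearIndependent.pair_iff.2 fun a b hab => ?_
        have h := congrArg Subtype.val hab
        have h3 : a * v1 (41 / 10 + t) 3 + b * v2 (41 / 10 + t) 3 = 0 := congrFun h 3
        have h11 : a * v1 (41 / 10 + t) 19 + b * v2 (41 / 10 + t) 19 = 0 := congrFun h 19
        have e1 : v2 (41 / 10 + t) 3 = 0 := by simp [v2]
        have e2 : v1 (41 / 10 + t) 19 = 0 := by simp [v1]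
        have e3 : v2 (41 / 10 + t) 19 = - v1 (41 / 10 + t) 3 := by simp [v1, v2]; ring
        have := (x_pos t ht).ne'
        rw [e1] at h3
        rw [e2, e3] at h11
        constructor
        · simpa [this] using h3
        · simpa [this] using h11
      simpa using li.fintype_card_le_finrank
    · obtain ⟨x, hx, hx0⟩ := hmu.exists_hasEigenvector
      have hx' : g *ᵥ x = mu • x := End.mem_eigenspace_iff.1 hx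
      by_contra hc
      refine hx0 (vanish x mu hx' ?_ ?_)
      · rcases lt_abs.1 (not_le.1 hc) with h | h
        · have := p_pos (mu - 41 / 10) (by linarith)
          rw [add_sub_cancel] at this; exact this.ne'
        · have := p_neg (-4 - mu) (by linarith)
          rw [sub_sub_cancel] at this; exact this.ne'
      · rcases lt_abs.1 (not_le.1 hc) with h | h
        · have := q_mono t (mu - 41 / 10) ht (by linarith)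
          rw [add_sub_cancel, hq] at this; exact this.ne'
        · have := q_neg (-4 - mu) (by linarith)
          rw [sub_sub_cancel] at this; exact this.ne'

end Pool.Agent.Results.MP_5fc97f_co.Counter
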